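import Pool.Agent.H440Z.Main1

/-!
# A distal dp-minimal structure with a definable downward directed family of nonempty sets
that extends to no definable type
-/

set_option autoImplicit false

namespace Pool.Agent.Results.MP_6a1f82_lc.ANoDefinableType

open FirstOrder FirstOrder.Language Pool.Agent.H440Z.MT

universe u

theorem result :
    ∃ (L : FirstOrder.Language.{0, 0}) (M : Type) (_ : L.Structure M) (_ : Nonempty M),
      Distal.{u} L M ∧ DpMinimal.{u} L M ∧
      ∃ (m n : ℕ) (Y : Set (Fin m → M)) (X : Set (Fin m ⊕ Fin n → M)),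
        (Set.univ : Set M).Definable L Y ∧ (Set.univ : Set M).Definable L X ∧ Y.Nonempty ∧
        (∀ b ∈ Y, (fibre X b).Nonempty) ∧
        (∀ b ∈ Y, ∀ b' ∈ Y, ∃ c ∈ Y, fibre X c ⊆ fibre X b ∩ fibre X b') ∧
        ¬ ∃ p : TypeOver L M n, DefinableType p ∧ ∀ b ∈ Y, SetInType (fibre X b) p :=
  Pool.Agent.H440Z.main1

end Pool.Agent.Results.MP_6a1f82_lc.ANoDefinableType
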